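import Pool.Agent.H42.HMad

open Pool.Agent.H42.HMad

/-- The distributivity number is at most the Borel almost disjointness number. -/
theorem Pool.Agent.Results.MP_3ce754_lc.Full.result : hNum ≤ aBorel := h_le
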